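import Pool.Agent.N661.BR.Stm5
import Pool.Agent.N141.BRUNIF

/-!
# BR/DOM (project of helper661, subtask 3169), by helper87: dominated spectral measures have no atoms
-/

set_option autoImplicit false
open MeasureTheory Filter Topology Complex ProbabilityTheory

namespace Pool.Agent.N87.BRDOM

open Pool.Agent.N661.BR
open Pool.Agent.Y265.RW (sy rr)

lemma rr_add (w w' : ℂ) (a : ℝ) : rr (w + w') a = rr w a + rr w' a := by
  simp only [rr, Complex.add_re, Complex.add_im]
  ring

lemma rr_sub (w w' : ℂ) (a : ℝ) : rr (w - w') a = rr w a - rr w' a := by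
  simp only [rr, Complex.sub_re, Complex.sub_im]
  ring

lemma rr_neg (w : ℂ) (a : ℝ) : rr (-w) a = -rr w a := by
  simp only [rr, Complex.neg_re, Complex.neg_im]
  ring

lemma rr_cont (w : ℂ) : Continuous (rr w) := by
  unfold rr
  fun_prop

lemma cos_int (ρ : Measure ℝ) [IsProbabilityMeasure ρ] (w : ℂ) :
    Integrable (fun a => Real.cos (rr w a)) ρ := by
  refine Integrable.of_bound (C := 1) (Real.continuous_cos.comp (rr_cont w)).aestronglyMeasurable
    (Eventually.of_forall fun a => ?_)
  rw [Real.norm_eq_abs]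
  exact Real.abs_cos_le_one _

/-- the square of a cosine sum -/
lemma sq_eq {ι : Type} [Fintype ι] (c : ι → ℝ) (w : ι → ℂ) (a : ℝ) :
    (∑ i, c i * Real.cos (rr (w i) a)) ^ 2 = ∑ x : ι ⊕ ι, ∑ y : ι ⊕ ι,
      Sum.elim (fun i => c i / 2) (fun i => c i / 2) x *
        Sum.elim (fun i => c i / 2) (fun i => c i / 2) y *
        Real.cos (rr (Sum.elim w (fun i => -w i) x - Sum.elim w (fun i => -w i) y) a) := by
  set c' : ι ⊕ ι → ℝ := Sum.elim (fun i => c i / 2) (fun i => c i / 2) with hc'
  set w' : ι ⊕ ι → ℂ := Sum.elim w (fun i => -w i) with hw'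
  have h1 : ∑ x, c' x * Real.cos (rr (w' x) a) = ∑ i, c i * Real.cos (rr (w i) a) := by
    rw [Fintype.sum_sum_type, ← Finset.sum_add_distrib]
    refine Finset.sum_congr rfl fun i _ => ?_
    simp only [hc', hw', Sum.elim_inl, Sum.elim_inr]
    rw [rr_neg, Real.cos_neg]
    ring
  have h2 : ∑ x, c' x * Real.sin (rr (w' x) a) = 0 := by
    rw [Fintype.sum_sum_type, ← Finset.sum_add_distrib]
    refine Finset.sum_eq_zero fun i _ => ?_
    simp only [hc', hw', Sum.elim_inl, Sum.elim_inr]
    rw [rr_neg, Real.sin_neg]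
    ring
  have h3 : ∑ x, ∑ y, c' x * c' y * Real.cos (rr (w' x - w' y) a) =
      (∑ x, c' x * Real.cos (rr (w' x) a)) ^ 2 + (∑ x, c' x * Real.sin (rr (w' x) a)) ^ 2 := by
    rw [sq, sq, Finset.sum_mul_sum, Finset.sum_mul_sum, ← Finset.sum_add_distrib]
    refine Finset.sum_congr rfl fun x _ => ?_
    rw [← Finset.sum_add_distrib]
    refine Finset.sum_congr rfl fun y _ => ?_
    rw [rr_sub, Real.cos_sub]
    ring
  rw [h3, h1, h2]
  ring

/-- its integral -/
lemma sq_int {ι : Type} [Fintype ι] (ρ : Measure ℝ) [IsProbabilityMeasure ρ] (c : ι → ℝ)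
    (w : ι → ℂ) :
    ∫ a, (∑ i, c i * Real.cos (rr (w i) a)) ^ 2 ∂ρ = ∑ x : ι ⊕ ι, ∑ y : ι ⊕ ι,
      Sum.elim (fun i => c i / 2) (fun i => c i / 2) x *
        Sum.elim (fun i => c i / 2) (fun i => c i / 2) y *
        cov ρ (Sum.elim w (fun i => -w i) x - Sum.elim w (fun i => -w i) y) := by
  simp only [sq_eq]
  rw [integral_finsetSum _ fun x _ => integrable_finsetSum _ fun y _ =>
    (cos_int ρ _).const_mul _]
  refine Finset.sum_congr rfl fun x _ => ?_
  rw [integral_finsetSum _ fun y _ => (cos_int ρ _).const_mul _]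
  refine Finset.sum_congr rfl fun y _ => ?_
  rw [integral_const_mul]
  rfl

/-- powers of a cosine -/
lemma pow_form (v : ℂ) (N : ℕ) : ∃ (ι : Type) (_ : Fintype ι) (c : ι → ℝ) (w : ι → ℂ),
    ∀ a, Real.cos (rr v a) ^ N = ∑ i, c i * Real.cos (rr (w i) a) := by
  induction N with
  | zero =>
    refine ⟨Unit, inferInstance, fun _ => 1, fun _ => 0, fun a => ?_⟩
    simp [rr]
  | succ N ih =>
    obtain ⟨ι, _, c, w, h⟩ := ih
    refine ⟨ι ⊕ ι, inferInstance, Sum.elim (fun i => c i / 2) (fun i => c i / 2),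
      Sum.elim (fun i => w i + v) (fun i => w i - v), fun a => ?_⟩
    rw [pow_succ, h, Finset.sum_mul, Fintype.sum_sum_type, ← Finset.sum_add_distrib]
    refine Finset.sum_congr rfl fun i _ => ?_
    simp only [Sum.elim_inl, Sum.elim_inr]
    rw [rr_add, rr_sub, Real.cos_add, Real.cos_sub]
    ring

lemma zset_meas (a₀ : ℝ) : MeasurableSet {a : ℝ | Real.sin (a - a₀) = 0} :=
  (isClosed_eq (by fun_prop) continuous_const).measurableSet

lemma unif_zset (a₀ : ℝ) : unif {a : ℝ | Real.sin (a - a₀) = 0} = 0 := by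
  refine Pool.Agent.N141.BRUNIF.unif_null (Set.Countable.measure_zero ?_ _)
  refine (Set.countable_range fun n : ℤ => a₀ + n * Real.pi).mono ?_
  intro b hb
  have hb' : Real.sin (b - a₀) = 0 := hb
  obtain ⟨n, hn⟩ := Real.sin_eq_zero_iff.1 hb'
  exact ⟨n, by simp only; linarith⟩

theorem DOM : Pool.Agent.N661.BR.S_DOM := by
  intro m C ν hm hν hdom
  haveI := hν
  haveI : IsProbabilityMeasure unif := Pool.Agent.N141.BRUNIF.prob
  -- the hypothesis for an arbitrary finite index type
  have hgen : ∀ (ι : Type) [Fintype ι] (c : ι → ℝ) (w : ι → ℂ),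
      m * ∑ i, ∑ j, c i * c j * cov ν (w i - w j) ≤
        C * ∑ i, ∑ j, c i * c j * cov unif (w i - w j) := by
    intro ι _ c w
    have e := (Fintype.equivFin ι).symm
    have h1 := hdom _ (c ∘ e) (w ∘ e)
    simp only [Function.comp_apply] at h1
    have h2 : ∀ g : ι → ι → ℝ, ∑ i, ∑ j, g (e i) (e j) = ∑ i, ∑ j, g i j := by
      intro g
      rw [← e.sum_comp (fun i => ∑ j, g i j)]
      refine Finset.sum_congr rfl fun i _ => ?_
      exact e.sum_comp (fun j => g (e i) j)
    rw [h2 (fun i j => c i * c j * cov ν (w i - w j)),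
      h2 (fun i j => c i * c j * J0 ‖w i - w j‖)] at h1
    simp only [Pool.Agent.N141.BRUNIF.cov_unif]
    exact h1
  have key : ∀ (v : ℂ) (N : ℕ), m * ∫ a, (Real.cos (rr v a) ^ N) ^ 2 ∂ν ≤
      C * ∫ a, (Real.cos (rr v a) ^ N) ^ 2 ∂unif := by
    intro v N
    obtain ⟨ι, _, c, w, h⟩ := pow_form v N
    simp only [h]
    rw [sq_int ν, sq_int unif]
    exact hgen _ _ _
  have hz : ∀ a₀ : ℝ, ν {a : ℝ | Real.sin (a - a₀) = 0} = 0 := by
    intro a₀
    set v : ℂ := ⟨-Real.sin a₀, Real.cos a₀⟩ with hv
    have hrr : ∀ a, rr v a = Real.sin (a - a₀) := by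
      intro a
      rw [Real.sin_sub]
      simp only [rr, hv]
      ring
    have hlim : Tendsto (fun N : ℕ => ∫ a, (Real.cos (rr v a) ^ N) ^ 2 ∂unif) atTop (𝓝 0) := by
      have h0 : (∫ _ : ℝ, (0 : ℝ) ∂unif) = 0 := by simp
      rw [← h0]
      refine tendsto_integral_of_dominated_convergence (fun _ => 1) (fun N => ?_)
        (integrable_const _) (fun N => Eventually.of_forall fun a => ?_) ?_
      · exact (((Real.continuous_cos.comp (rr_cont v)).pow N).pow 2).aestronglyMeasurable
      · rw [Real.norm_eq_abs, abs_pow, abs_pow]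
        exact pow_le_one₀ (by positivity) (pow_le_one₀ (abs_nonneg _) (Real.abs_cos_le_one _))
      · have hae : ∀ᵐ a ∂unif, Real.sin (a - a₀) ≠ 0 := by
          rw [ae_iff]
          simp only [not_not]
          exact unif_zset a₀
        filter_upwards [hae] with a ha
        have h1 : Real.cos (rr v a) ^ 2 < 1 := by
          rw [hrr]
          have h2 := Real.sin_sq_add_cos_sq (Real.sin (a - a₀))
          have h3 : Real.sin (Real.sin (a - a₀)) ≠ 0 := by
            intro h
            obtain ⟨n, hn⟩ := Real.sin_eq_zero_iff.1 h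
            have h4 : |(n : ℝ) * Real.pi| ≤ 1 := by rw [hn]; exact Real.abs_sin_le_one _
            rw [abs_mul, abs_of_pos Real.pi_pos] at h4
            have h5 : |(n : ℝ)| < 1 := by
              have := Real.pi_gt_three
              nlinarith [abs_nonneg (n : ℝ)]
            have h6 : n = 0 := by
              rw [← Int.cast_abs] at h5
              have h7 : |n| < 1 := by exact_mod_cast h5
              exact Int.abs_lt_one_iff.1 h7
            rw [h6, Int.cast_zero, zero_mul] at hn
            exact ha hn.symm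
          have h4 : 0 < Real.sin (Real.sin (a - a₀)) ^ 2 := by positivity
          linarith
        have h2 := tendsto_pow_atTop_nhds_zero_of_lt_one (sq_nonneg (Real.cos (rr v a))) h1
        refine h2.congr fun N => ?_
        rw [← pow_mul, ← pow_mul, mul_comm]
    have hle : ∀ N : ℕ, m * ν.real {a : ℝ | Real.sin (a - a₀) = 0} ≤
        C * ∫ a, (Real.cos (rr v a) ^ N) ^ 2 ∂unif := by
      intro N
      refine le_trans (mul_le_mul_of_nonneg_left ?_ hm.le) (key v N)
      rw [← integral_indicator_one (zset_meas a₀)]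
      refine integral_mono_of_nonneg (Eventually.of_forall fun a => ?_) ?_
        (Eventually.of_forall fun a => ?_)
      · exact Set.indicator_nonneg (fun _ _ => zero_le_one) a
      · refine Integrable.of_bound (C := 1)
          (((Real.continuous_cos.comp (rr_cont v)).pow N).pow 2).aestronglyMeasurable
          (Eventually.of_forall fun a => ?_)
        rw [Real.norm_eq_abs, abs_pow, abs_pow]
        exact pow_le_one₀ (by positivity) (pow_le_one₀ (abs_nonneg _) (Real.abs_cos_le_one _))
      · by_cases ha : a ∈ {a : ℝ | Real.sin (a - a₀) = 0}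
        · rw [Set.indicator_of_mem ha]
          have ha' : Real.sin (a - a₀) = 0 := ha
          simp only [hrr, ha', Real.cos_zero, one_pow, Pi.one_apply, le_refl]
        · rw [Set.indicator_of_notMem ha]
          positivity
    have h1 : m * ν.real {a : ℝ | Real.sin (a - a₀) = 0} ≤ C * 0 :=
      ge_of_tendsto (hlim.const_mul C) (Eventually.of_forall hle)
    rw [mul_zero] at h1
    have h2 : ν.real {a : ℝ | Real.sin (a - a₀) = 0} ≤ 0 := by
      by_contra hcon
      push Not at hcon
      have := mul_pos hm hcon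
      linarith
    have h3 : ν.real {a : ℝ | Real.sin (a - a₀) = 0} = 0 := le_antisymm h2 measureReal_nonneg
    exact (measureReal_eq_zero_iff).1 h3
  unfold parallel
  rw [measureReal_def]
  have hmeas : MeasurableSet {p : ℝ × ℝ | Real.sin (p.1 - p.2) = 0} :=
    (isClosed_eq (by fun_prop) continuous_const).measurableSet
  have h0 : (ν.prod ν) {p : ℝ × ℝ | Real.sin (p.1 - p.2) = 0} = 0 := by
    rw [Measure.measure_prod_null hmeas]
    refine Eventually.of_forall fun a => ?_
    show ν (Prod.mk a ⁻¹' {p : ℝ × ℝ | Real.sin (p.1 - p.2) = 0}) = 0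
    refine measure_mono_null ?_ (hz a)
    intro b hb
    have hb' : Real.sin (a - b) = 0 := hb
    show Real.sin (b - a) = 0
    have : b - a = -(a - b) := by ring
    rw [this, Real.sin_neg, hb', neg_zero]
  rw [h0, ENNReal.toReal_zero]

end Pool.Agent.N87.BRDOM
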