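import Pool.Agent.N661.BH.Stm

/-! BH/BDH: uniform local bounds of displaced ladders (helper87). -/

set_option autoImplicit false

open MeasureTheory Filter Topology Complex

namespace Pool.Agent.N87.BH

noncomputable section

/-- the real linear map `z ↦ z + s (im z) v` -/
def tv (s : ℝ) (v : ℂ) : ℂ →L[ℝ] ℂ :=
  ContinuousLinearMap.id ℝ ℂ + (s • Complex.imCLM).smulRight v

theorem tv_apply (s : ℝ) (v z : ℂ) : tv s v z = z + ((s * z.im : ℝ) : ℂ) * v := by
  simp [tv]

theorem tv_det (s : ℝ) (v : ℂ) : (tv s v).det = 1 + s * v.im := by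
  have h : (tv s v).det = LinearMap.det (tv s v : ℂ →ₗ[ℝ] ℂ) := rfl
  rw [h, ← LinearMap.det_toMatrix Complex.basisOneI, Matrix.det_fin_two]
  simp [LinearMap.toMatrix_apply, tv_apply]

theorem tv_inj {s : ℝ} {v : ℂ} (hs : 0 < 1 + s * v.im) : Function.Injective (tv s v) := by
  rw [injective_iff_map_eq_zero]
  intro z hz
  rw [tv_apply] at hz
  have h1 := congrArg Complex.im hz
  have h2 := congrArg Complex.re hz
  simp only [Complex.add_im, Complex.mul_im, Complex.ofReal_re, Complex.ofReal_im,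
    Complex.add_re, Complex.mul_re, Complex.zero_im, Complex.zero_re, zero_mul, sub_zero,
    add_zero] at h1 h2
  have h3 : (1 + s * v.im) * z.im = 0 := by linear_combination h1
  have h4 : z.im = 0 := (mul_eq_zero.1 h3).resolve_left hs.ne'
  rw [h4, mul_zero, zero_mul, add_zero] at h2
  exact Complex.ext h2 h4

theorem core {φ : ℂ → ℝ} (hφ : Continuous φ) (hK : IsCompact (tsupport φ)) {g : ℂ → ℂ}
    {K' : Set ℂ} (hK' : IsCompact K') (hg : ContinuousOn g K') {s : ℝ} {v : ℂ}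
    (hs : 1 / 2 ≤ 1 + s * v.im)
    (hmaps : ∀ z ∈ tsupport φ, z + ((s * z.im : ℝ) : ℂ) * v ∈ K') {M C : ℝ} (hM0 : 0 ≤ M)
    (hM : ∀ z ∈ tsupport φ, ‖φ z‖ ≤ M) (hC : ∫ z in K', ‖g z‖ ^ 2 ≤ C) :
    ∫ z, |φ z| * ‖g (z + ((s * z.im : ℝ) : ℂ) * v)‖ ^ 2 ≤ M * (2 * C) := by
  set K := tsupport φ with hKd
  have hmaps' : Set.MapsTo (tv s v) K K' := fun z hz => by
    rw [tv_apply]; exact hmaps z hz
  have hcont : ContinuousOn (fun z => ‖g (tv s v z)‖ ^ 2) K :=
    ((hg.comp (tv s v).continuous.continuousOn hmaps').norm).pow 2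
  have h1 : ∫ z, |φ z| * ‖g (z + ((s * z.im : ℝ) : ℂ) * v)‖ ^ 2 =
      ∫ z in K, |φ z| * ‖g (tv s v z)‖ ^ 2 := by
    simp only [← tv_apply]
    refine (setIntegral_eq_integral_of_forall_compl_eq_zero (fun z hz => ?_)).symm
    rw [image_eq_zero_of_notMem_tsupport hz]
    simp
  have h2 : ∫ z in K, |φ z| * ‖g (tv s v z)‖ ^ 2 ≤ ∫ z in K, M * ‖g (tv s v z)‖ ^ 2 := by
    refine setIntegral_mono_on ?_ ?_ hK.measurableSet fun z hz => ?_
    · exact (hφ.abs.continuousOn.mul hcont).integrableOn_compact hK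
    · exact (continuousOn_const.mul hcont).integrableOn_compact hK
    · exact mul_le_mul_of_nonneg_right (hM z hz) (by positivity)
  have hdet : (1 : ℝ) / 2 ≤ |(tv s v).det| := by
    rw [tv_det]
    exact hs.trans (le_abs_self _)
  have h3 : ∫ z in (tv s v) '' K, ‖g z‖ ^ 2 = |(tv s v).det| * ∫ z in K, ‖g (tv s v z)‖ ^ 2 := by
    rw [integral_image_eq_integral_abs_det_fderiv_smul volume hK.measurableSet
      (fun z _ => (tv s v).hasFDerivAt.hasFDerivWithinAt)
      ((tv_inj (by linarith)).injOn) (fun z => ‖g z‖ ^ 2), ← integral_const_mul]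
    rfl
  have h4 : ∫ z in (tv s v) '' K, ‖g z‖ ^ 2 ≤ ∫ z in K', ‖g z‖ ^ 2 := by
    refine setIntegral_mono_set ((hg.norm.pow 2).integrableOn_compact hK')
      (Eventually.of_forall fun z => by positivity) ?_
    exact (Set.image_subset_iff.2 hmaps').eventuallyLE
  have h5 : 0 ≤ ∫ z in K, ‖g (tv s v z)‖ ^ 2 := integral_nonneg fun z => by positivity
  have h6 : ∫ z in K, ‖g (tv s v z)‖ ^ 2 ≤ 2 * C := by
    have h7 : 1 / 2 * ∫ z in K, ‖g (tv s v z)‖ ^ 2 ≤ C :=
      (mul_le_mul_of_nonneg_right hdet h5).trans (h3 ▸ h4.trans hC)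
    linarith
  rw [h1]
  refine h2.trans ?_
  rw [integral_const_mul]
  exact mul_le_mul_of_nonneg_left h6 hM0

open Pool.Agent.N661.BH in
theorem BDH : S_BDH := by
  intro B h w H φ hφ κ R
  have hK : IsCompact (tsupport φ) := hφ.2.1
  obtain ⟨δ, hδ, hδB⟩ := hK.exists_cthickening_subset_open H.op hφ.2.2
  have hK' : IsCompact (Metric.cthickening δ (tsupport φ)) := hK.cthickening
  obtain ⟨C, hC⟩ := (H.bd κ).lb.bd _ hK' hδB
  obtain ⟨M, hM⟩ := hK.exists_bound_of_continuousOn hφ.1.continuous.continuousOn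
  obtain ⟨Y, hY⟩ := hK.exists_bound_of_continuousOn (f := Complex.im)
    Complex.continuous_im.continuousOn
  set R' : ℝ := max R 0 with hR'
  set Y' : ℝ := max Y 0 with hY'
  have hR0 : 0 ≤ R' := le_max_right _ _
  have hY0 : 0 ≤ Y' := le_max_right _ _
  have hev : ∀ᶠ n in atTop, h n < min (1 / (2 * (R' + 1))) (δ / ((R' + 1) * (Y' + 1))) := by
    refine H.hlim.eventually (gt_mem_nhds ?_)
    positivity
  refine ⟨max M 0 * (2 * C), ?_⟩
  filter_upwards [hev, hC] with n hn hCn v hv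
  have hh0 : 0 < h n := H.hpos n
  have hvR : ‖v‖ ≤ R' := hv.trans (le_max_left _ _)
  have hn1 : h n * (R' + 1) ≤ 1 / 2 := by
    have h1 := (hn.trans_le (min_le_left _ _)).le
    rw [le_div_iff₀ (by positivity)] at h1
    linarith
  have hn2 : h n * ((R' + 1) * (Y' + 1)) ≤ δ := by
    have h1 := (hn.trans_le (min_le_right _ _)).le
    rwa [le_div_iff₀ (by positivity)] at h1
  refine core hφ.1.continuous hK hK' (((H.bd κ).lb.co n).mono hδB) ?_ (fun z hz => ?_)
    (le_max_right _ _) (fun z hz => (hM z hz).trans (le_max_left _ _)) hCn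
  · have h1 : |v.im| ≤ R' := (Complex.abs_im_le_norm v).trans hvR
    have h2 : |h n * v.im| ≤ 1 / 2 := by
      rw [abs_mul, abs_of_pos hh0]
      calc h n * |v.im| ≤ h n * (R' + 1) := by gcongr; linarith
        _ ≤ 1 / 2 := hn1
    have := (abs_le.1 h2).1
    linarith
  · refine Metric.mem_cthickening_of_dist_le _ z δ _ hz ?_
    rw [dist_eq_norm, add_sub_cancel_left, norm_mul, Complex.norm_real, norm_mul,
      Real.norm_eq_abs (h n), abs_of_pos hh0]
    have h1 : ‖z.im‖ ≤ Y' := (hY z hz).trans (le_max_left _ _)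
    calc h n * ‖z.im‖ * ‖v‖ ≤ h n * (Y' + 1) * (R' + 1) := by gcongr <;> linarith
      _ = h n * ((R' + 1) * (Y' + 1)) := by ring
      _ ≤ δ := hn2

end

end Pool.Agent.N87.BH
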