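import Pool.Agent.N804.PV.StmE
import Pool.Agent.H370R2.Dyadic
import Pool.Agent.H370R2.PC1
import Pool.Agent.H295R2.Z

/-!
# Project PV (helper804), task 1 (subtask 2426), by helper87: assembly of the explicit formula
-/

set_option autoImplicit false
set_option maxHeartbeats 1000000

namespace Pool.Agent.N87.PV

open Complex Filter Topology Set MeasureTheory
open scoped ComplexConjugate
open H370 (Zf mult)
open Pool.Agent.Y23 (ZZ YL Lam Zt mu Dec IsZ ev)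
open Pool.Agent.N804.PV (hT aT DS S_PV1a S_PV1b S_PV1d)

/-- no zeros on the real segment -/
lemma zeta_real_ne {σ : ℝ} (hσ : 0 < σ) (h1 : σ < 1) : riemannZeta (σ : ℂ) ≠ 0 := by
  intro h0
  have hne : (σ : ℂ) ≠ 1 := by
    intro h
    have := congrArg Complex.re h
    simp at this
    linarith
  have hZs : Pool.Agent.H295R2.Zs (σ : ℂ) = 0 := by
    rw [← Pool.Agent.H295R2.Zs_eq hne, h0, mul_zero]
  rw [Pool.Agent.H295R2.Zs_eq_Zt (by simpa using hσ)] at hZs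
  have hH : ∃ r : ℝ, 0 ≤ r ∧ Pool.Agent.H295R2.Hf (σ : ℂ) = (r : ℂ) := by
    refine ⟨∫ t in Set.Ioi (1 : ℝ), Int.fract t * t ^ (-(σ + 1)), ?_, ?_⟩
    · refine setIntegral_nonneg measurableSet_Ioi fun t ht => ?_
      have ht : (1 : ℝ) < t := ht
      exact mul_nonneg (Int.fract_nonneg t) (by positivity)
    · rw [Pool.Agent.H295R2.Hf_eq, ← integral_complex_ofReal]
      refine setIntegral_congr_fun measurableSet_Ioi fun t ht => ?_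
      have ht : (1 : ℝ) < t := ht
      push_cast
      rw [Complex.ofReal_cpow (by linarith)]
      push_cast
      rfl
  obtain ⟨r, hr, hrH⟩ := hH
  unfold Pool.Agent.H295R2.Zt at hZs
  rw [hrH] at hZs
  have h2 := congrArg Complex.re hZs
  have h3 : ((σ : ℂ) - σ * (σ - 1) * (r : ℂ)).re = σ - σ * (σ - 1) * r := by
    rw [show ((σ : ℂ) - σ * (σ - 1) * (r : ℂ)) = ((σ - σ * (σ - 1) * r : ℝ) : ℂ) by push_cast; ring]
    exact Complex.ofReal_re _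
  rw [h3] at h2
  simp only [Complex.zero_re] at h2
  have : 0 ≤ σ * (1 - σ) * r := mul_nonneg (mul_nonneg hσ.le (by linarith)) hr
  nlinarith

lemma im_ne {s : ℂ} (h : IsZ s) : s.im ≠ 0 := by
  intro him
  obtain ⟨h0, h1, h2⟩ := h
  have hs : s = (s.re : ℂ) := by apply Complex.ext <;> simp [him]
  rw [hs] at h0
  exact zeta_real_ne h1 h2 h0

lemma mem_Zf0 {N : ℝ} {s : ℂ} : s ∈ Zf riemannZeta 0 N ↔ IsZ s ∧ 0 < s.im ∧ s.im ≤ N := by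
  unfold Zf
  rw [dif_pos (H370.zeta_zeros_finite N), Set.Finite.mem_toFinset]
  unfold H370.zset
  simp only [Set.mem_setOf_eq]
  constructor
  · rintro ⟨a1, a2, a3, a4, a5⟩
    exact ⟨⟨a5, a1, a2⟩, a3, a4⟩
  · rintro ⟨⟨a5, a1, a2⟩, a3, a4⟩
    exact ⟨a1, a2, a3, a4, a5⟩

lemma Zf0_mono {N N' : ℝ} (h : N ≤ N') : Zf riemannZeta 0 N ⊆ Zf riemannZeta 0 N' := by
  intro s hs
  rw [mem_Zf0] at hs ⊢
  exact ⟨hs.1, hs.2.1, hs.2.2.trans h⟩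

open scoped Classical in
/-- the zeros with `|im| ≤ N` -/
noncomputable def AN (N : ℝ) : Finset ℂ :=
  Zf riemannZeta 0 N ∪ (Zf riemannZeta 0 N).image (fun s => conj s)

lemma AN_isZ {N : ℝ} {s : ℂ} (h : s ∈ AN N) : IsZ s := by
  unfold AN at h
  rw [Finset.mem_union] at h
  rcases h with h | h
  · exact (mem_Zf0.1 h).1
  · obtain ⟨s', hs', rfl⟩ := Finset.mem_image.1 h
    exact Pool.Agent.Y23.isZ_conj (mem_Zf0.1 hs').1

open scoped Classical in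
/-- the same in the type of the zeros -/
noncomputable def SN (N : ℝ) : Finset Zt :=
  (AN N).subtype (fun s => riemannZeta s = 0 ∧ 0 < s.re ∧ s.re < 1)

lemma SN_mono : Monotone fun N : ℕ => SN (N : ℝ) := by
  classical
  intro N N' h
  have h' : (N : ℝ) ≤ N' := by exact_mod_cast h
  refine Finset.subtype_mono ?_
  unfold AN
  exact Finset.union_subset_union (Zf0_mono h') (Finset.image_subset_image (Zf0_mono h'))

lemma SN_ex (ρ : Zt) : ∃ N : ℕ, ρ ∈ SN (N : ℝ) := by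
  classical
  have hne : (ρ : ℂ).im ≠ 0 := im_ne (show IsZ (ρ : ℂ) from ρ.2)
  obtain ⟨N, hN⟩ := exists_nat_ge |(ρ : ℂ).im|
  refine ⟨N, ?_⟩
  unfold SN
  rw [Finset.mem_subtype]
  unfold AN
  rw [Finset.mem_union]
  rcases lt_or_gt_of_ne hne with h | h
  · right
    refine Finset.mem_image.2 ⟨conj (ρ : ℂ), ?_, Complex.conj_conj _⟩
    rw [mem_Zf0]
    refine ⟨Pool.Agent.Y23.isZ_conj ρ.2, ?_, ?_⟩
    · rw [Complex.conj_im]; linarith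
    · rw [Complex.conj_im]; exact (neg_le_abs _).trans hN
  · left
    rw [mem_Zf0]
    exact ⟨ρ.2, h, (le_abs_self _).trans hN⟩

lemma SN_tendsto : Tendsto (fun N : ℕ => SN (N : ℝ)) atTop atTop :=
  tendsto_atTop_finset_of_monotone SN_mono SN_ex

/-- symmetric sums -/
lemma sum_SN (F : ℂ → ℝ) (hF : ∀ s, IsZ s → F (conj s) = F s) (N : ℝ) :
    ∑ ρ ∈ SN N, F (ρ : ℂ) = 2 * ∑ s ∈ Zf riemannZeta 0 N, F s := by
  classical
  unfold SN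
  rw [Finset.sum_subtype_of_mem (f := F) (p := fun s => riemannZeta s = 0 ∧ 0 < s.re ∧ s.re < 1)
    (fun x hx => AN_isZ hx)]
  unfold AN
  rw [Finset.sum_union]
  · rw [Finset.sum_image (fun a _ b _ h => (starRingEnd ℂ).injective h)]
    rw [Finset.sum_congr rfl (fun s hs => hF s (mem_Zf0.1 hs).1)]
    ring
  · rw [Finset.disjoint_left]
    intro s hs hs'
    obtain ⟨s', hs'', rfl⟩ := Finset.mem_image.1 hs'
    have h1 := (mem_Zf0.1 hs).2.1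
    have h2 := (mem_Zf0.1 hs'').2.1
    rw [Complex.conj_im] at h1
    linarith

/-! ### The test function -/

lemma conj_two : conj (2 : ℂ) = 2 := Complex.conj_ofNat 2

lemma aT_conj (T : ℝ) (s : ℂ) : aT T (conj s) = conj (aT T s) := by
  unfold aT
  rw [← intervalIntegral.intervalIntegral_conj]
  refine intervalIntegral.integral_congr fun v _ => ?_
  show cexp ((v : ℂ) * conj s) = conj (cexp ((v : ℂ) * s))
  rw [← Complex.exp_conj, map_mul, Complex.conj_ofReal]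

lemma hT_conj (T ε y : ℝ) (w : ℂ) : hT T ε y (conj w) = conj (hT T ε y w) := by
  unfold hT
  rw [map_mul, ← aT_conj, ← Complex.exp_conj]
  congr 2
  · rw [map_add, map_div₀, map_one, conj_two]
  · rw [map_add, map_mul, map_div₀, map_mul, map_pow, map_pow, conj_two, Complex.conj_ofReal,
      Complex.conj_ofReal]

lemma hF_conj (T ε y : ℝ) {s : ℂ} (hs : IsZ s) :
    (mu (conj s) : ℝ) * (hT T ε y (conj s - 1 / 2)).re = (mu s : ℝ) * (hT T ε y (s - 1 / 2)).re := by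
  rw [Pool.Agent.Y23.mu_conj hs]
  have h1 : conj s - 1 / 2 = conj (s - 1 / 2) := by
    rw [map_sub, map_div₀, map_one, conj_two]
  rw [h1, hT_conj, Complex.conj_re]

/-- the finite sums -/
noncomputable def ZN (T ε N y : ℝ) : ℝ :=
  2 * ∑ s ∈ Zf riemannZeta 0 N, (mult riemannZeta s : ℝ) * (hT T ε y (s - 1 / 2)).re

lemma ZN_eq (T ε N y : ℝ) : ZN T ε N y = (∑ ρ ∈ SN N, (mu (ρ : ℂ) : ℂ) * hT T ε y ((ρ : ℂ) - 1 / 2)).re := by
  rw [Complex.re_sum]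
  have h1 : ∀ ρ : Zt, ((mu (ρ : ℂ) : ℂ) * hT T ε y ((ρ : ℂ) - 1 / 2)).re =
      (fun s : ℂ => (mu s : ℝ) * (hT T ε y (s - 1 / 2)).re) (ρ : ℂ) := by
    intro ρ
    rw [← Complex.ofReal_natCast, Complex.re_ofReal_mul]
  simp only [h1]
  rw [sum_SN (fun s : ℂ => (mu s : ℝ) * (hT T ε y (s - 1 / 2)).re) (fun s hs => hF_conj T ε y hs)]
  rfl

lemma exp_summable {δ : ℝ} (hδ : 0 < δ) :
    Summable fun ρ : Zt => (mu (ρ : ℂ) : ℝ) * Real.exp (-δ * (ρ : ℂ).im ^ 2) := by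
  refine Summable.of_nonneg_of_le (fun _ => by positivity) (fun ρ => ?_)
    ((Pool.Agent.Y23.zsummable 0).mul_left (1 + 1 / δ))
  have h2 := Pool.Agent.Y23.exp_neg_le_inv (x := (ρ : ℂ).im) hδ
  rw [sub_zero]
  calc (mu (ρ : ℂ) : ℝ) * Real.exp (-δ * (ρ : ℂ).im ^ 2) ≤
      (mu (ρ : ℂ) : ℝ) * ((1 + 1 / δ) * (1 / (1 + (ρ : ℂ).im ^ 2))) :=
        mul_le_mul_of_nonneg_left h2 (Nat.cast_nonneg _)
    _ = _ := by ring

lemma ZN_bd {T ε M y : ℝ} (hε : 0 < ε) (hM : 0 ≤ M)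
    (hb : ∀ w : ℂ, |w.re| ≤ 1 / 2 →
      ‖hT T ε y w‖ ≤ M * Real.exp (|y| / 2) * Real.exp (-(ε ^ 2 / 2) * w.im ^ 2)) (N : ℝ) :
    |ZN T ε N y| ≤ (M * ∑' ρ : Zt, (mu (ρ : ℂ) : ℝ) * Real.exp (-(ε ^ 2 / 2) * (ρ : ℂ).im ^ 2)) *
      Real.exp (|y| / 2) := by
  have hδ : 0 < ε ^ 2 / 2 := by positivity
  rw [ZN_eq]
  refine (Complex.abs_re_le_norm _).trans ((norm_sum_le _ _).trans ?_)
  have h1 : ∀ ρ ∈ SN N, ‖(mu (ρ : ℂ) : ℂ) * hT T ε y ((ρ : ℂ) - 1 / 2)‖ ≤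
      (M * Real.exp (|y| / 2)) * ((mu (ρ : ℂ) : ℝ) * Real.exp (-(ε ^ 2 / 2) * (ρ : ℂ).im ^ 2)) := by
    intro ρ _
    have e : ((ρ : ℂ) - 1 / 2).re = (ρ : ℂ).re - 1 / 2 := by simp
    have e2 : ((ρ : ℂ) - 1 / 2).im = (ρ : ℂ).im := by simp
    have h2 := hb ((ρ : ℂ) - 1 / 2) (by
      rw [e, abs_le]
      have := ρ.2
      constructor <;> linarith [this.2.1, this.2.2])
    rw [e2] at h2
    rw [norm_mul, Complex.norm_natCast]
    calc (mu (ρ : ℂ) : ℝ) * ‖hT T ε y ((ρ : ℂ) - 1 / 2)‖ ≤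
        (mu (ρ : ℂ) : ℝ) * (M * Real.exp (|y| / 2) * Real.exp (-(ε ^ 2 / 2) * (ρ : ℂ).im ^ 2)) :=
          mul_le_mul_of_nonneg_left h2 (Nat.cast_nonneg _)
      _ = _ := by ring
  refine (Finset.sum_le_sum h1).trans ?_
  rw [← Finset.mul_sum]
  have h3 := (exp_summable hδ).sum_le_tsum (SN N) (fun _ _ => by positivity)
  calc _ ≤ (M * Real.exp (|y| / 2)) *
        ∑' ρ : Zt, (mu (ρ : ℂ) : ℝ) * Real.exp (-(ε ^ 2 / 2) * (ρ : ℂ).im ^ 2) :=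
        mul_le_mul_of_nonneg_left h3 (by positivity)
    _ = _ := by ring

/-- the formula for one test function -/
lemma line_split {h : ℂ → ℂ} {M δ : ℝ} (hδ : 0 < δ) (hM : 0 ≤ M) (hh : Dec h M δ) :
    2 * Real.pi * ∑' ρ : Zt, (mu (ρ : ℂ) : ℂ) * h ((ρ : ℂ) - 1 / 2) =
      (∫ t : ℝ, YL ⟨1, t⟩ * h ⟨1, t⟩) - (∫ t : ℝ, H370.DD Lam ⟨3 / 2, t⟩ * h ⟨1, t⟩) +
        ∫ t : ℝ, ZZ ⟨1, t⟩ * h (-⟨1, t⟩) := by
  obtain ⟨c1, C1, _, b1⟩ := Pool.Agent.Y23.YL_line (x := 1) (by norm_num) Pool.Agent.Y23.Rg_one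
  have hh' : Dec (fun w => h (-w)) M δ := by
    refine ⟨hh.1.comp differentiable_neg, fun w hw => ?_⟩
    have := hh.2 (-w) (by rwa [Complex.neg_re, abs_neg])
    rwa [Complex.neg_im, neg_sq] at this
  have i1 : Integrable (fun t : ℝ => YL ⟨1, t⟩ * h ⟨1, t⟩) :=
    Pool.Agent.Y23.dec_mul_int c1 b1 hδ hh (by norm_num)
  have i2 : Integrable (fun t : ℝ => H370.DD Lam ⟨3 / 2, t⟩ * h ⟨1, t⟩) :=
    Pool.Agent.Y23.dec_mul_int Pool.Agent.Y23.DD_cont Pool.Agent.Y23.DD_bd hδ hh (by norm_num)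
  have i1' : Integrable (fun t : ℝ => YL ⟨1, t⟩ * h (-⟨1, t⟩)) :=
    Pool.Agent.Y23.dec_mul_int c1 b1 hδ hh' (by norm_num)
  have i2' : Integrable (fun t : ℝ => H370.DD Lam ⟨3 / 2, t⟩ * h (-⟨1, t⟩)) :=
    Pool.Agent.Y23.dec_mul_int Pool.Agent.Y23.DD_cont Pool.Agent.Y23.DD_bd hδ hh' (by norm_num)
  have i3 : Integrable (fun t : ℝ => ZZ ⟨1, t⟩ * h (-⟨1, t⟩)) := by
    refine (i1'.sub i2').congr (Eventually.of_forall fun t => ?_)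
    show YL ⟨1, t⟩ * h (-⟨1, t⟩) - H370.DD Lam ⟨3 / 2, t⟩ * h (-⟨1, t⟩) = ZZ ⟨1, t⟩ * h (-⟨1, t⟩)
    rw [Pool.Agent.Y23.ZZ_one]
    ring
  have i4 : Integrable (fun t : ℝ => YL ⟨1, t⟩ * h ⟨1, t⟩ - H370.DD Lam ⟨3 / 2, t⟩ * h ⟨1, t⟩) :=
    i1.sub i2
  rw [Pool.Agent.Y23.zeros_line hδ hM hh, ← integral_sub i1 i2, ← integral_add i4 i3]
  refine integral_congr_ae (Eventually.of_forall fun t => ?_)
  show ZZ ⟨1, t⟩ * ev h ⟨1, t⟩ =
    YL ⟨1, t⟩ * h ⟨1, t⟩ - H370.DD Lam ⟨3 / 2, t⟩ * h ⟨1, t⟩ + ZZ ⟨1, t⟩ * h (-⟨1, t⟩)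
  rw [Pool.Agent.Y23.ZZ_one]
  unfold ev
  ring

theorem core (ha : S_PV1a) (hb : S_PV1b) (hd : S_PV1d) :
    ∃ C : ℝ, 0 < C ∧ ∀ T : ℝ, 2 ≤ T → ∀ ε : ℝ, 0 < ε → ε ≤ 1 →
      ∃ (Z : ℝ → ℝ) (B : ℝ), (∀ y : ℝ, Tendsto (fun N : ℕ => ZN T ε N y) atTop (𝓝 (Z y))) ∧
        (∀ (N : ℕ) (y : ℝ), |ZN T ε N y| ≤ B * Real.exp (|y| / 2)) ∧
        ∀ y : ℝ, 0 ≤ y → |DS T ε y + Z y| ≤ C * Real.exp (-y) * (1 + Real.log (1 / ε)) ^ 2 := by
  obtain ⟨C, hC, ha⟩ := ha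
  refine ⟨C, hC, fun T hT2 ε hε hε1 => ?_⟩
  obtain ⟨M, hM, hd⟩ := hd T hT2 ε hε hε1
  have hδ : 0 < ε ^ 2 / 2 := by positivity
  refine ⟨fun y => (∑' ρ : Zt, (mu (ρ : ℂ) : ℂ) * hT T ε y ((ρ : ℂ) - 1 / 2)).re,
    M * ∑' ρ : Zt, (mu (ρ : ℂ) : ℝ) * Real.exp (-(ε ^ 2 / 2) * (ρ : ℂ).im ^ 2), ?_, ?_, ?_⟩
  · intro y
    have hMy : 0 ≤ M * Real.exp |y| := by positivity
    have hs : Summable fun ρ : Zt => (mu (ρ : ℂ) : ℂ) * hT T ε y ((ρ : ℂ) - 1 / 2) :=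
      (Pool.Agent.Y23.dec_summable hδ hMy (hd y).1).of_norm
    have h1 := hs.hasSum.comp SN_tendsto
    have h2 := (Complex.continuous_re.tendsto _).comp h1
    refine h2.congr fun N => ?_
    show (∑ ρ ∈ SN (N : ℝ), (mu (ρ : ℂ) : ℂ) * hT T ε y ((ρ : ℂ) - 1 / 2)).re = ZN T ε N y
    rw [ZN_eq]
  · intro N y
    exact ZN_bd hε hM (hd y).2 N
  · intro y hy
    have hMy : 0 ≤ M * Real.exp |y| := by positivity
    have h1 := line_split hδ hMy (hd y).1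
    obtain ⟨a1, a2⟩ := ha T hT2 ε hε hε1 y hy
    have b1 := hb T hT2 ε hε hε1 y
    set S : ℂ := ∑' ρ : Zt, (mu (ρ : ℂ) : ℂ) * hT T ε y ((ρ : ℂ) - 1 / 2) with hS
    set I1 : ℂ := ∫ t : ℝ, YL ⟨1, t⟩ * hT T ε y ⟨1, t⟩ with hI1
    set I2 : ℂ := ∫ t : ℝ, H370.DD Lam ⟨3 / 2, t⟩ * hT T ε y ⟨1, t⟩ with hI2
    set I3 : ℂ := ∫ t : ℝ, ZZ ⟨1, t⟩ * hT T ε y (-⟨1, t⟩) with hI3
    set E : ℝ := C * Real.exp (-y) * (1 + Real.log (1 / ε)) ^ 2 with hE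
    have h2 : 2 * Real.pi * (S + (DS T ε y : ℂ)) =
        (I1 - 2 * Real.pi * hT T ε y (1 / 2)) + I3 := by
      rw [mul_add, h1, ← b1]
      ring
    have h3 : ‖2 * (Real.pi : ℂ) * (S + (DS T ε y : ℂ))‖ ≤ 2 * E := by
      rw [h2]
      refine (norm_add_le _ _).trans ?_
      linarith
    rw [norm_mul, norm_mul, Complex.norm_ofNat, Complex.norm_real, Real.norm_eq_abs,
      abs_of_pos Real.pi_pos] at h3
    have h4 : DS T ε y + S.re = (S + (DS T ε y : ℂ)).re := by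
      rw [Complex.add_re, Complex.ofReal_re]
      ring
    show |DS T ε y + S.re| ≤ E
    rw [h4]
    refine (Complex.abs_re_le_norm _).trans ?_
    have hpi : 1 ≤ Real.pi := by linarith [Real.pi_gt_three]
    nlinarith [norm_nonneg (S + (DS T ε y : ℂ))]

end Pool.Agent.N87.PV
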