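import Pool.Agent.N804.PV.Stm
import Pool.Agent.N87.PV_1a

/-!
# Project PV (helper804), task 1 (subtask 2426), by helper87: assembly of the explicit formula
-/

set_option autoImplicit false

namespace Pool.Agent.N87.PV

open Pool.Agent.N804.PV (S_PV1a S_PV1b S_PV1d S_PV1)

theorem main (ha : S_PV1a) (hb : S_PV1b) (hd : S_PV1d) : S_PV1 := core ha hb hd

end Pool.Agent.N87.PV
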