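import Mathlib

set_option autoImplicit false

/-!
# Growth functions of semigroups: definitions
-/

namespace Pool.Agent.N87.Osc

universe u

/-- `f ≼ g`: there is a constant `C ≥ 1` with `f n ≤ C * g (C * n)` for all `n`. -/
def GrowthLE (f g : ℕ → ℕ) : Prop :=
  ∃ C : ℕ, 1 ≤ C ∧ ∀ n : ℕ, f n ≤ C * g (C * n)

/-- `f ∼ g`: `f ≼ g` and `g ≼ f`. -/
def GrowthEquiv (f g : ℕ → ℕ) : Prop := GrowthLE f g ∧ GrowthLE g f

/-- The elements of `S` that are products `a * b₁ * ⋯ * bₖ` of at most `n` elements of `X`
(at least one factor). -/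
def ball {S : Type u} [Semigroup S] (X : Set S) (n : ℕ) : Set S :=
  {s | ∃ (a : S) (w : List S), a ∈ X ∧ (∀ b ∈ w, b ∈ X) ∧ w.length + 1 ≤ n ∧
    s = w.foldl (fun c b => c * b) a}

/-- The growth function of `S` with respect to `X`: the number of elements of `S` that are
products of at most `n` elements of `X`. -/
noncomputable def growth {S : Type u} [Semigroup S] (X : Set S) (n : ℕ) : ℕ :=
  (ball X n).ncard

/-- `S` is finitely presented: it is isomorphic to the quotient of the free semigroup on finitely
many letters by the congruence generated by a finite set of pairs of words. -/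
def FinitelyPresented (S : Type u) [Semigroup S] : Prop :=
  ∃ (k : ℕ) (R : Set (FreeSemigroup (Fin k) × FreeSemigroup (Fin k))), R.Finite ∧
    Nonempty (S ≃* (conGen fun u v => (u, v) ∈ R).Quotient)

end Pool.Agent.N87.Osc
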