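import Pool.Agent.N87.OscDefs

set_option autoImplicit false

namespace Pool.Agent.N87.Osc

universe u v

/-! ### slow and fast functions for countable families -/

/-- A countable family of functions which tend to infinity has a common monotone lower bound which
tends to infinity. -/
theorem exists_slow (a : ℕ → ℕ → ℕ) (ha : ∀ i K, ∃ N, ∀ n, N ≤ n → K ≤ a i n) :
    ∃ g : ℕ → ℕ, Monotone g ∧ (∀ n, g n ≤ n) ∧ (∀ K, ∃ N, ∀ n, N ≤ n → K ≤ g n) ∧
      ∀ i, ∃ N, ∀ n, N ≤ n → g n ≤ a i n := by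
  choose N hN using ha
  let M : ℕ → ℕ := fun K => ∑ i ∈ Finset.range (K + 1), N i K
  have hM : ∀ K i, i ≤ K → N i K ≤ M K := fun K i hi =>
    Finset.single_le_sum (f := fun i => N i K) (fun _ _ => Nat.zero_le _)
      (Finset.mem_range.2 (by omega))
  classical
  let g : ℕ → ℕ := fun n => Nat.findGreatest (fun K => M K ≤ n) n
  have hg : ∀ n K, K ≤ n → M K ≤ n → K ≤ g n := fun n K h1 h2 =>
    Nat.le_findGreatest (P := fun K => M K ≤ n) h1 h2
  have hspec : ∀ n, g n ≠ 0 → M (g n) ≤ n := fun n h =>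
    Nat.findGreatest_of_ne_zero (P := fun K => M K ≤ n) rfl h
  refine ⟨g, ?_, fun n => Nat.findGreatest_le n, ?_, ?_⟩
  · intro m n hmn
    rcases Nat.eq_zero_or_pos (g m) with h | h
    · rw [h]; exact Nat.zero_le _
    · exact hg n (g m) ((Nat.findGreatest_le m).trans hmn) ((hspec m h.ne').trans hmn)
  · intro K
    exact ⟨max K (M K), fun n hn => hg n K (le_of_max_le_left hn) (le_of_max_le_right hn)⟩
  · intro i
    refine ⟨max i (M i), fun n hn => ?_⟩
    rcases Nat.eq_zero_or_pos (g n) with h | h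
    · rw [h]; exact Nat.zero_le _
    · have h1 : i ≤ g n := hg n i (le_of_max_le_left hn) (le_of_max_le_right hn)
      exact hN i (g n) n ((hM (g n) i h1).trans (hspec n h.ne'))

/-- polynomials against powers of two -/
theorem poly_lt_pow (K d : ℕ) : ∃ N : ℕ, ∀ n, N ≤ n → (K * (n + 1) ^ 2) ^ d ≤ 2 ^ n := by
  have h : Filter.Tendsto (fun n : ℕ => ((n : ℝ) ^ (2 * d)) / (2 : ℝ) ^ n) Filter.atTop
      (nhds 0) := tendsto_pow_const_div_const_pow_of_one_lt (2 * d) (by norm_num)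
  have h2 := h.comp (Filter.tendsto_add_atTop_nat 1)
  have hpos : (0 : ℝ) < 1 / (2 * ((K : ℝ) + 1) ^ d) := by positivity
  have h3 := (h2.eventually (gt_mem_nhds hpos))
  rw [Filter.eventually_atTop] at h3
  obtain ⟨N, hN⟩ := h3
  refine ⟨N, fun n hn => ?_⟩
  have h4 := hN n hn
  simp only [Function.comp] at h4
  rw [div_lt_div_iff₀ (by positivity) (by positivity)] at h4
  have h5 : ((K * (n + 1) ^ 2) ^ d : ℝ) ≤ 2 ^ n := by
    have e1 : ((K : ℝ) * ((n : ℝ) + 1) ^ 2) ^ d = (K : ℝ) ^ d * ((n : ℝ) + 1) ^ (2 * d) := by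
      rw [mul_pow, pow_mul]
    have e2 : (K : ℝ) ^ d ≤ ((K : ℝ) + 1) ^ d := by gcongr; linarith
    have e3 : ((n : ℝ) + 1) ^ (2 * d) * (2 * ((K : ℝ) + 1) ^ d) < 1 * 2 ^ (n + 1) := by
      have := h4
      push_cast at this
      exact this
    rw [e1]
    have e4 : (K : ℝ) ^ d * ((n : ℝ) + 1) ^ (2 * d) ≤
        ((K : ℝ) + 1) ^ d * ((n : ℝ) + 1) ^ (2 * d) := by gcongr
    rw [pow_succ] at e3
    nlinarith
  exact_mod_cast h5

/-- Submultiplicative functions which are infinitely often quadratically bounded are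
subexponential. -/
theorem subexp (F : ℕ → ℕ) (hF : ∀ m n, 1 + F (m + n) ≤ (1 + F m) * (1 + F n))
    (hmono : Monotone F) (K : ℕ) (hK : ∀ N, ∃ n, N ≤ n ∧ F n < K * (n + 1) ^ 2) (k : ℕ) :
    ∃ N, ∀ n, N ≤ n → F n ^ k ≤ 2 ^ n := by
  obtain ⟨N, hN⟩ := poly_lt_pow K (2 * k)
  obtain ⟨n0, hn0, h0⟩ := hK (N + 1)
  have hP := hN n0 (by omega)
  set P := K * (n0 + 1) ^ 2 with hPdef
  have hpos : 0 < n0 := by omega
  have hP1 : 1 ≤ P := by omega
  refine ⟨n0, fun n hn => ?_⟩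
  -- n ≤ (q + 1) * n0 with q = n / n0
  set q := n / n0 with hq
  have hn1 : q * n0 ≤ n := Nat.div_mul_le_self n n0
  have hn2 : n < (q + 1) * n0 := by
    have := Nat.lt_div_mul_add (a := n) hpos
    rw [← hq] at this
    calc n < q * n0 + n0 := this
      _ = (q + 1) * n0 := by ring
  have hr : n - q * n0 ≤ n0 := by
    have : (q + 1) * n0 = q * n0 + n0 := by ring
    omega
  have hq1 : 1 ≤ q := by
    rw [hq]; exact (Nat.one_le_div_iff hpos).2 hn
  -- bound via `F ((q-1) n0 + n0 + r)`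
  have hb : 1 + F n ≤ P ^ q * P := by
    have hind : ∀ q, 1 ≤ q → 1 + F (q * n0) ≤ P ^ q := by
      intro q hq
      induction q, hq using Nat.le_induction with
      | base => simp; omega
      | succ q hq ih =>
        have e : (q + 1) * n0 = q * n0 + n0 := by ring
        rw [e, pow_succ]
        exact (hF _ _).trans (Nat.mul_le_mul ih (by omega))
    have e : n = q * n0 + (n - q * n0) := by omega
    calc 1 + F n = 1 + F (q * n0 + (n - q * n0)) := by rw [← e]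
      _ ≤ (1 + F (q * n0)) * (1 + F (n - q * n0)) := hF _ _
      _ ≤ P ^ q * P := Nat.mul_le_mul (hind q hq1) (by have := hmono hr; omega)
  have hb2 : F n ≤ P ^ (q + 1) := by rw [pow_succ]; omega
  have h1 : (F n ^ k) ^ 2 ≤ (2 ^ n) ^ 2 := by
    calc (F n ^ k) ^ 2 = F n ^ (2 * k) := by rw [← pow_mul, mul_comm]
      _ ≤ (P ^ (q + 1)) ^ (2 * k) := Nat.pow_le_pow_left hb2 _
      _ = (P ^ (2 * k)) ^ (q + 1) := by rw [← pow_mul, ← pow_mul, mul_comm]
      _ ≤ (2 ^ n0) ^ (q + 1) := Nat.pow_le_pow_left hP _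
      _ = 2 ^ (n0 * (q + 1)) := by rw [← pow_mul]
      _ ≤ 2 ^ (n * 2) := Nat.pow_le_pow_right (by norm_num) (by nlinarith)
      _ = (2 ^ n) ^ 2 := by rw [← pow_mul]
  exact (Nat.pow_le_pow_iff_left (by norm_num)).1 h1

/-! ### the diagonal argument -/

theorem diagonal (F : ℕ → ℕ → ℕ) (hF : ∀ i m n, 1 + F i (m + n) ≤ (1 + F i m) * (1 + F i n))
    (hmono : ∀ i, Monotone (F i)) :
    ∃ f₁ f₂ : ℕ → ℕ, StrictMono f₁ ∧ StrictMono f₂ ∧ (∀ n, f₁ n ≤ f₂ n) ∧
      GrowthLE (fun n => n ^ 2) f₁ ∧ GrowthLE f₂ (fun n => 2 ^ n) ∧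
      ¬ GrowthLE f₁ (fun n => n ^ 2) ∧ ¬ GrowthLE (fun n => 2 ^ n) f₂ ∧
      ∀ i, (∃ N, ∀ n, N ≤ n → f₁ n ≤ F i n) ∨ (∃ N, ∀ n, N ≤ n → F i n ≤ f₂ n) := by
  classical
  let A : ℕ → Prop := fun i => ∀ K, ∃ N, ∀ n, N ≤ n → K * (n + 1) ^ 2 ≤ F i n
  let a : ℕ → ℕ → ℕ := fun i n => if A i then F i n / (n + 1) ^ 2 - 1 else n
  have ha : ∀ i K, ∃ N, ∀ n, N ≤ n → K ≤ a i n := by
    intro i K
    by_cases hA : A i
    · obtain ⟨N, hN⟩ := hA (K + 1)
      refine ⟨N, fun n hn => ?_⟩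
      have h1 : K + 1 ≤ F i n / (n + 1) ^ 2 :=
        (Nat.le_div_iff_mul_le (by positivity)).2 (hN n hn)
      simp only [a, if_pos hA]
      omega
    · exact ⟨K, fun n hn => by simpa only [a, if_neg hA] using hn⟩
  obtain ⟨h, hmon, hle, hinf, hslow⟩ := exists_slow a ha
  let b : ℕ → ℕ → ℕ := fun i n => if A i then n else Nat.findGreatest (fun k => F i n ^ k ≤ 2 ^ n) n
  have hb : ∀ i K, ∃ N, ∀ n, N ≤ n → K ≤ b i n := by
    intro i K
    by_cases hA : A i
    · exact ⟨K, fun n hn => by simpa only [b, if_pos hA] using hn⟩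
    · have hA' : ∃ K', ∀ N, ∃ n, N ≤ n ∧ F i n < K' * (n + 1) ^ 2 := by
        simp only [A] at hA
        push Not at hA
        exact hA
      obtain ⟨K', hK'⟩ := hA'
      obtain ⟨N, hN⟩ := subexp (F i) (hF i) (hmono i) K' hK' K
      refine ⟨max N K, fun n hn => ?_⟩
      simp only [b, if_neg hA]
      exact Nat.le_findGreatest (P := fun k => F i n ^ k ≤ 2 ^ n) (le_of_max_le_right hn)
        (hN n (le_of_max_le_left hn))
  obtain ⟨g, gmon, gle, ginf, gslow⟩ := exists_slow b hb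
  let E : ℕ → ℕ := fun n => (Finset.range (n + 1)).sup (fun m => m / g m + 1)
  have hE : Monotone E := fun m n hmn =>
    Finset.sup_mono (Finset.range_mono (by omega))
  have hEm : ∀ n, n / g n + 1 ≤ E n := fun n =>
    Finset.le_sup (f := fun m => m / g m + 1) (Finset.mem_range.2 (by omega))
  have hEle : ∀ n, E n ≤ n + 1 := by
    intro n
    refine Finset.sup_le fun m hm => ?_
    have h1 := Nat.div_le_self m (g m)
    have h2 := Finset.mem_range.1 hm
    omega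
  let f₁ : ℕ → ℕ := fun n => (n + 1) ^ 2 * (h n + 1)
  let f₂ : ℕ → ℕ := fun n => 2 ^ E n + f₁ n
  have hf₁ : StrictMono f₁ := by
    refine strictMono_nat_of_lt_succ fun n => ?_
    have h1 : h n ≤ h (n + 1) := hmon (Nat.le_succ n)
    show (n + 1) ^ 2 * (h n + 1) < (n + 1 + 1) ^ 2 * (h (n + 1) + 1)
    calc (n + 1) ^ 2 * (h n + 1) ≤ (n + 1) ^ 2 * (h (n + 1) + 1) :=
          Nat.mul_le_mul_left _ (by omega)
      _ < (n + 1 + 1) ^ 2 * (h (n + 1) + 1) :=
          Nat.mul_lt_mul_of_pos_right (Nat.pow_lt_pow_left (by omega) (by norm_num)) (by omega)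
  have hf₁le : ∀ n, f₁ n ≤ (n + 1) ^ 3 := by
    intro n
    have h1 := hle n
    calc (n + 1) ^ 2 * (h n + 1) ≤ (n + 1) ^ 2 * (n + 1) := Nat.mul_le_mul_left _ (by omega)
      _ = (n + 1) ^ 3 := by ring
  have hlt2 : ∀ n : ℕ, n + 1 ≤ 2 ^ n := fun n => Nat.lt_two_pow_self
  refine ⟨f₁, f₂, hf₁, ?_, ?_, ?_, ?_, ?_, ?_, ?_⟩
  · intro m n hmn
    have h1 := hf₁ hmn
    have h2 : 2 ^ E m ≤ 2 ^ E n := Nat.pow_le_pow_right (by norm_num) (hE hmn.le)
    show 2 ^ E m + f₁ m < 2 ^ E n + f₁ n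
    omega
  · intro n
    exact Nat.le_add_left _ _
  · refine ⟨1, le_rfl, fun n => ?_⟩
    show n ^ 2 ≤ 1 * ((1 * n + 1) ^ 2 * (h (1 * n) + 1))
    rw [one_mul, one_mul]
    calc n ^ 2 ≤ (n + 1) ^ 2 := Nat.pow_le_pow_left (by omega) 2
      _ ≤ (n + 1) ^ 2 * (h n + 1) := Nat.le_mul_of_pos_right _ (by omega)
  · refine ⟨3, by norm_num, fun n => ?_⟩
    have h1 := hEle n
    have h2 := hf₁le n
    have h3 : 2 ^ E n ≤ 2 ^ (n + 1) := Nat.pow_le_pow_right (by norm_num) h1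
    have h4 : (n + 1) ^ 3 ≤ (2 ^ n) ^ 3 := Nat.pow_le_pow_left (hlt2 n) 3
    have h5 : (2 ^ n) ^ 3 = 2 ^ (3 * n) := by rw [← pow_mul, mul_comm]
    have h6 : 2 ^ n ≤ 2 ^ (3 * n) := Nat.pow_le_pow_right (by norm_num) (by omega)
    have h7 : (2 : ℕ) ^ (n + 1) = 2 * 2 ^ n := by ring
    show 2 ^ E n + f₁ n ≤ 3 * 2 ^ (3 * n)
    omega
  · rintro ⟨C, hC, hCn⟩
    obtain ⟨N, hN⟩ := hinf (C ^ 3)
    have h1 := hCn (N + 1)
    have h2 := hN (N + 1) (by omega)
    have h3 : (N + 1 + 1) ^ 2 * (h (N + 1) + 1) ≤ C * (C * (N + 1)) ^ 2 := h1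
    have h4 : C * (C * (N + 1)) ^ 2 = C ^ 3 * (N + 1) ^ 2 := by ring
    rw [h4] at h3
    have h5 : C ^ 3 * (N + 1) ^ 2 < (N + 1 + 1) ^ 2 * (h (N + 1) + 1) := by
      calc C ^ 3 * (N + 1) ^ 2 ≤ h (N + 1) * (N + 1) ^ 2 := Nat.mul_le_mul_right _ h2
        _ < (h (N + 1) + 1) * (N + 1) ^ 2 := Nat.mul_lt_mul_of_pos_right (by omega) (by positivity)
        _ ≤ (h (N + 1) + 1) * (N + 1 + 1) ^ 2 :=
            Nat.mul_le_mul_left _ (Nat.pow_le_pow_left (by omega) 2)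
        _ = (N + 1 + 1) ^ 2 * (h (N + 1) + 1) := mul_comm _ _
    omega
  · rintro ⟨C, hC, hCn⟩
    obtain ⟨N, hN⟩ := ginf (4 * C)
    -- bound for `E`
    have hEC : ∀ t : ℕ, E (C * (4 * t)) ≤ N + 2 + t := by
      intro t
      refine Finset.sup_le fun m hm => ?_
      have hm' := Finset.mem_range.1 hm
      by_cases hmN : N ≤ m
      · have h1 : m / g m ≤ m / (4 * C) := Nat.div_le_div_left (hN m hmN) (by omega)
        have h2 : m / (4 * C) ≤ t := by
          have : m ≤ t * (4 * C) := by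
            have : C * (4 * t) = t * (4 * C) := by ring
            omega
          exact Nat.div_le_of_le_mul (by rw [mul_comm]; exact this)
        omega
      · have h1 := Nat.div_le_self m (g m)
        omega
    set D := C * 2 ^ (N + 2) + C * (4 * C) ^ 3 with hD
    have key : ∀ t : ℕ, 2 ^ t ≤ D := by
      intro t
      have h1 : 2 ^ (4 * t) ≤ C * (2 ^ E (C * (4 * t)) + f₁ (C * (4 * t))) := hCn (4 * t)
      have h2 : 2 ^ E (C * (4 * t)) ≤ 2 ^ (N + 2) * 2 ^ t := by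
        rw [← pow_add]
        exact Nat.pow_le_pow_right (by norm_num) (hEC t)
      have h3 : f₁ (C * (4 * t)) ≤ (4 * C) ^ 3 * 8 ^ t := by
        calc f₁ (C * (4 * t)) ≤ (C * (4 * t) + 1) ^ 3 := hf₁le _
          _ ≤ (4 * C * (t + 1)) ^ 3 := Nat.pow_le_pow_left (by nlinarith) 3
          _ = (4 * C) ^ 3 * (t + 1) ^ 3 := by ring
          _ ≤ (4 * C) ^ 3 * (2 ^ t) ^ 3 :=
              Nat.mul_le_mul_left _ (Nat.pow_le_pow_left (hlt2 t) 3)
          _ = (4 * C) ^ 3 * 8 ^ t := by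
              rw [← pow_mul, mul_comm t 3, pow_mul]; norm_num
      have h4 : (2 : ℕ) ^ t ≤ 8 ^ t := Nat.pow_le_pow_left (by norm_num) t
      have h5 : 2 ^ (4 * t) ≤ D * 8 ^ t := by
        calc 2 ^ (4 * t) ≤ C * (2 ^ (N + 2) * 2 ^ t + (4 * C) ^ 3 * 8 ^ t) :=
              h1.trans (Nat.mul_le_mul_left _ (Nat.add_le_add h2 h3))
          _ ≤ C * (2 ^ (N + 2) * 8 ^ t + (4 * C) ^ 3 * 8 ^ t) :=
              Nat.mul_le_mul_left _ (Nat.add_le_add_right (Nat.mul_le_mul_left _ h4) _)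
          _ = D * 8 ^ t := by rw [hD]; ring
      have h6 : (2 : ℕ) ^ (4 * t) = 2 ^ t * 8 ^ t := by
        rw [← mul_pow, pow_mul]; norm_num
      rw [h6] at h5
      exact Nat.le_of_mul_le_mul_right h5 (by positivity)
    have := key D
    have h2 : D < 2 ^ D := Nat.lt_two_pow_self
    omega
  · intro i
    by_cases hA : A i
    · left
      obtain ⟨N1, hN1⟩ := hA 1
      obtain ⟨N2, hN2⟩ := hslow i
      refine ⟨max N1 N2, fun n hn => ?_⟩
      have h1 := hN1 n (le_of_max_le_left hn)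
      have h2 := hN2 n (le_of_max_le_right hn)
      simp only [a, if_pos hA] at h2
      have h3 : 1 ≤ F i n / (n + 1) ^ 2 := (Nat.le_div_iff_mul_le (by positivity)).2 h1
      show (n + 1) ^ 2 * (h n + 1) ≤ F i n
      calc (n + 1) ^ 2 * (h n + 1) ≤ (n + 1) ^ 2 * (F i n / (n + 1) ^ 2) :=
            Nat.mul_le_mul_left _ (by omega)
        _ ≤ F i n := Nat.mul_div_le _ _
    · right
      obtain ⟨N1, hN1⟩ := gslow i
      obtain ⟨N2, hN2⟩ := ginf 1
      refine ⟨max N1 N2, fun n hn => ?_⟩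
      have h1 := hN1 n (le_of_max_le_left hn)
      have h2 := hN2 n (le_of_max_le_right hn)
      simp only [b, if_neg hA] at h1
      have h3 : F i n ≤ 2 ^ (n / g n + 1) := by
        rcases Nat.eq_zero_or_pos (F i n) with h0 | h0
        · rw [h0]; exact Nat.zero_le _
        · have h4 : F i n ^ Nat.findGreatest (fun k => F i n ^ k ≤ 2 ^ n) n ≤ 2 ^ n :=
            Nat.findGreatest_spec (P := fun k => F i n ^ k ≤ 2 ^ n) (Nat.zero_le n)
              (by simpa using Nat.one_le_two_pow)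
          have h5 : F i n ^ g n ≤ 2 ^ n := (Nat.pow_le_pow_right h0 h1).trans h4
          have h6 : n < (n / g n + 1) * g n := by
            have := Nat.lt_div_mul_add (a := n) (b := g n) h2
            linarith [add_mul (n / g n) 1 (g n)]
          have h7 : F i n ^ g n < (2 ^ (n / g n + 1)) ^ g n := by
            rw [← pow_mul]
            exact lt_of_le_of_lt h5 (Nat.pow_lt_pow_right (by norm_num) h6)
          exact (lt_of_pow_lt_pow_left₀ _ (Nat.zero_le _) h7).le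
      calc F i n ≤ 2 ^ (n / g n + 1) := h3
        _ ≤ 2 ^ E n := Nat.pow_le_pow_right (by norm_num) (hEm n)
        _ ≤ 2 ^ E n + f₁ n := Nat.le_add_right _ _

end Pool.Agent.N87.Osc
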