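import Pool.Agent.N87.OscGrowth

set_option autoImplicit false

namespace Pool.Agent.N87.Osc

universe u v

section basic

variable {S : Type u} [Semigroup S]

theorem foldl_mul (a : S) (w : List S) (c : S) :
    w.foldl (fun c b => c * b) (c * a) = c * w.foldl (fun c b => c * b) a := by
  induction w generalizing a with
  | nil => rfl
  | cons b w ih =>
    simp only [List.foldl_cons]
    rw [mul_assoc, ih]

theorem ball_mono (X : Set S) : Monotone (ball X) := by
  rintro m n hmn s ⟨a, w, ha, hw, hl, hs⟩
  exact ⟨a, w, ha, hw, hl.trans hmn, hs⟩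

theorem ball_zero (X : Set S) : ball X 0 = ∅ := by
  ext s
  simp only [Set.mem_empty_iff_false, iff_false]
  rintro ⟨a, w, -, -, hl, -⟩
  omega

theorem ball_one (X : Set S) : ball X 1 ⊆ X := by
  rintro s ⟨a, w, ha, -, hl, hs⟩
  have : w = [] := List.length_eq_zero_iff.1 (by omega)
  subst this
  simpa [hs] using ha

theorem ball_add (X : Set S) (m n : ℕ) (hm : 1 ≤ m) :
    ball X (m + n) ⊆ ball X m ∪ (fun p : S × S => p.1 * p.2) '' (ball X m ×ˢ ball X n) := by
  rintro s ⟨a, w, ha, hw, hl, hs⟩
  rcases Nat.lt_or_ge w.length m with h | h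
  · exact Or.inl ⟨a, w, ha, hw, h, hs⟩
  right
  obtain ⟨b, w2, hw2⟩ : ∃ b w2, w.drop (m - 1) = b :: w2 := by
    cases hd : w.drop (m - 1) with
    | nil =>
      have := congrArg List.length hd
      rw [List.length_drop, List.length_nil] at this
      omega
    | cons b w2 => exact ⟨b, w2, rfl⟩
  have hsplit : w = w.take (m - 1) ++ b :: w2 := by rw [← hw2, List.take_append_drop]
  have hlen : (w.take (m - 1)).length = m - 1 := by rw [List.length_take]; omega
  have hlen2 : w2.length + 1 = w.length - (m - 1) := by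
    have := congrArg List.length hw2
    rw [List.length_drop, List.length_cons] at this
    omega
  have hmem : ∀ c ∈ b :: w2, c ∈ X := fun c hc => hw c (by
    rw [hsplit]; exact List.mem_append_right _ hc)
  refine ⟨((w.take (m - 1)).foldl (fun c b => c * b) a, w2.foldl (fun c b => c * b) b),
    ⟨⟨a, w.take (m - 1), ha, fun c hc => hw c (List.mem_of_mem_take hc), by omega, rfl⟩,
      ⟨b, w2, hmem b (by simp), fun c hc => hmem c (List.mem_cons_of_mem _ hc), by omega, rfl⟩⟩,
    ?_⟩
  simp only
  rw [hs]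
  conv_rhs => rw [hsplit]
  rw [List.foldl_append, List.foldl_cons, foldl_mul]

theorem ball_finite (X : Set S) (hX : X.Finite) (n : ℕ) : (ball X n).Finite := by
  induction n with
  | zero => rw [ball_zero]; exact Set.finite_empty
  | succ n ih =>
    rcases Nat.eq_zero_or_pos n with h | h
    · subst h; exact hX.subset (ball_one X)
    · exact (ih.union ((ih.prod (hX.subset (ball_one X))).image _)).subset (ball_add X n 1 h)

theorem growth_add (X : Set S) (hX : X.Finite) (m n : ℕ) :
    1 + growth X (m + n) ≤ (1 + growth X m) * (1 + growth X n) := by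
  rcases Nat.eq_zero_or_pos m with h | h
  · subst h
    have h0 : growth X 0 = 0 := by unfold growth; rw [ball_zero]; exact Set.ncard_empty _
    rw [h0, zero_add]
    omega
  · have h1 : growth X (m + n) ≤ growth X m + growth X m * growth X n := by
      unfold growth
      have f1 := ball_finite X hX m
      have f2 := ball_finite X hX n
      calc (ball X (m + n)).ncard
          ≤ (ball X m ∪ (fun p : S × S => p.1 * p.2) '' (ball X m ×ˢ ball X n)).ncard :=
            Set.ncard_le_ncard (ball_add X m n h) (f1.union ((f1.prod f2).image _))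
        _ ≤ (ball X m).ncard + ((fun p : S × S => p.1 * p.2) '' (ball X m ×ˢ ball X n)).ncard :=
            Set.ncard_union_le _ _
        _ ≤ (ball X m).ncard + (ball X m).ncard * (ball X n).ncard := by
            refine Nat.add_le_add_left ?_ _
            refine (Set.ncard_image_le (f1.prod f2)).trans ?_
            rw [Set.ncard_prod]
    nlinarith

theorem growth_mono (X : Set S) (hX : X.Finite) : Monotone (growth X) := fun _ n h =>
  Set.ncard_le_ncard (ball_mono X h) (ball_finite X hX n)

theorem ball_image {T : Type v} [Semigroup T] (e : S ≃* T) (X : Set S) (n : ℕ) :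
    ball (e '' X) n = e '' ball X n := by
  have hfold : ∀ (w : List S) (a : S), (w.map e).foldl (fun c b => c * b) (e a) =
      e (w.foldl (fun c b => c * b) a) := by
    intro w
    induction w with
    | nil => intro a; rfl
    | cons b w ih =>
      intro a
      simp only [List.map_cons, List.foldl_cons]
      rw [← map_mul, ih]
  ext t
  constructor
  · rintro ⟨a, w, ⟨a', ha', rfl⟩, hw, hl, ht⟩
    have hw' : w = (w.map e.symm).map e := by
      rw [List.map_map]
      conv_lhs => rw [← List.map_id w]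
      refine List.map_congr_left fun x _ => ?_
      simp
    refine ⟨(w.map e.symm).foldl (fun c b => c * b) a', ⟨a', w.map e.symm, ha', ?_, ?_, rfl⟩, ?_⟩
    · intro b hb
      obtain ⟨c, hc, rfl⟩ := List.mem_map.1 hb
      obtain ⟨d, hd, hd2⟩ := hw c hc
      rw [← hd2]
      simpa using hd
    · simpa using hl
    · rw [← hfold, ← hw', ht]
  · rintro ⟨s, ⟨a, w, ha, hw, hl, hs⟩, rfl⟩
    refine ⟨e a, w.map e, ⟨a, ha, rfl⟩, ?_, by simpa using hl, ?_⟩
    · intro b hb
      obtain ⟨c, hc, rfl⟩ := List.mem_map.1 hb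
      exact ⟨c, hw c hc, rfl⟩
    · rw [hs, hfold]

theorem growth_image {T : Type v} [Semigroup T] (e : S ≃* T) (X : Set S) :
    growth (e '' X) = growth X := by
  funext n
  unfold growth
  rw [ball_image, Set.ncard_image_of_injective _ e.injective]

end basic

instance countable_freeSemigroup (k : ℕ) : Countable (FreeSemigroup (Fin k)) := by
  have : Function.Injective (fun w : FreeSemigroup (Fin k) => (w.head, w.tail)) := by
    intro u v h
    exact FreeSemigroup.ext (congrArg Prod.fst h) (congrArg Prod.snd h)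
  exact this.countable

/-- data for a finitely presented semigroup with a finite set of elements -/
abbrev Idx : Type :=
  Σ k : ℕ, Finset (FreeSemigroup (Fin k) × FreeSemigroup (Fin k)) × Finset (FreeSemigroup (Fin k))

/-- the growth function given by the data -/
noncomputable def gr (i : Idx) : ℕ → ℕ :=
  growth (S := (conGen fun u v : FreeSemigroup (Fin i.1) => (u, v) ∈ (i.2.1 : Set _)).Quotient)
    ((fun w : FreeSemigroup (Fin i.1) =>
      (w : (conGen fun u v : FreeSemigroup (Fin i.1) => (u, v) ∈ (i.2.1 : Set _)).Quotient)) ''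
      (i.2.2 : Set (FreeSemigroup (Fin i.1))))

theorem exists_idx {S : Type u} [Semigroup S] (hS : FinitelyPresented S) (X : Set S)
    (hX : X.Finite) : ∃ i : Idx, growth X = gr i := by
  obtain ⟨k, R, hR, ⟨e⟩⟩ := hS
  classical
  obtain ⟨R', rfl⟩ := hR.exists_finset_coe
  -- representatives of the elements of `X`
  have hsurj : ∀ q : (conGen fun u v : FreeSemigroup (Fin k) => (u, v) ∈ (R' : Set _)).Quotient,
      ∃ w : FreeSemigroup (Fin k), (w : (conGen fun u v : FreeSemigroup (Fin k) =>
        (u, v) ∈ (R' : Set _)).Quotient) = q := fun q => Con.induction_on q fun w => ⟨w, rfl⟩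
  choose r hr using hsurj
  refine ⟨⟨k, R', (hX.toFinset).image fun x => r (e x)⟩, ?_⟩
  unfold gr
  rw [← growth_image e X]
  congr 1
  ext q
  simp only [Finset.coe_image, Set.Finite.coe_toFinset, Set.mem_image, exists_exists_and_eq_and]
  constructor
  · rintro ⟨x, hx, rfl⟩
    exact ⟨x, hx, hr _⟩
  · rintro ⟨x, hx, hq⟩
    exact ⟨x, hx, by rw [← hq, hr]⟩

theorem gr_add (i : Idx) (m n : ℕ) : 1 + gr i (m + n) ≤ (1 + gr i m) * (1 + gr i n) :=
  growth_add _ ((Finset.finite_toSet _).image _) m n

theorem gr_mono (i : Idx) : Monotone (gr i) :=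
  growth_mono _ ((Finset.finite_toSet _).image _)

theorem main : ∃ f₁ f₂ : ℕ → ℕ, StrictMono f₁ ∧ StrictMono f₂ ∧ (∀ n, f₁ n ≤ f₂ n) ∧
    GrowthLE (fun n => n ^ 2) f₁ ∧ GrowthLE f₂ (fun n => 2 ^ n) ∧
    ¬ GrowthLE f₁ (fun n => n ^ 2) ∧ ¬ GrowthLE (fun n => 2 ^ n) f₂ ∧
    ∀ (S : Type u) [Semigroup S] (X : Set S), FinitelyPresented S → X.Finite →
      (∃ N, ∀ n, N ≤ n → f₁ n ≤ growth X n) ∨ (∃ N, ∀ n, N ≤ n → growth X n ≤ f₂ n) := by
  haveI : Nonempty Idx := ⟨⟨0, ∅, ∅⟩⟩
  obtain ⟨j, hj⟩ := exists_surjective_nat Idx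
  obtain ⟨f₁, f₂, h1, h2, h3, h4, h5, h6, h7, h8⟩ := diagonal (fun i => gr (j i))
    (fun i => gr_add (j i)) (fun i => gr_mono (j i))
  refine ⟨f₁, f₂, h1, h2, h3, h4, h5, h6, h7, fun S _ X hS hX => ?_⟩
  obtain ⟨i, hi⟩ := exists_idx hS X hX
  obtain ⟨t, rfl⟩ := hj i
  rw [hi]
  exact h8 t

end Pool.Agent.N87.Osc
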